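import Pool.Agent.H.MP_9441bf_co.A

set_option autoImplicit false
open Finset Pool.Agent.H.MP_9441bf_co

namespace Pool.Agent.Results.MP_9441bf_co.Quad

def Det (n k : ℕ) : Prop :=
  ∀ (G G' : Type) [AddCommGroup G] [AddCommGroup G']
    (A A' : Fin n → Fin n → Fin n) (α β γ : Fin n ≃ G) (α' β' γ' : Fin n ≃ G'),
    (∀ i j, γ (A i j) = α i + β j) → (∀ i j, γ' (A' i j) = α' i + β' j) →
    ∀ S : Finset (Fin n × Fin n), S.card ≤ k → (∀ i j, (i, j) ∉ S → A' i j = A i j) →
    Nonempty (G' ≃+ G)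

lemma lower (n k : ℕ) (hk : 9 * k < 2 * n ^ 2) : Det n k := by
  intro G G' _ _ A A' α β γ α' β' γ' hA hA' S hS h
  classical
  have : Fintype G := Fintype.ofEquiv _ α
  have hc : Fintype.card G = n := by rw [← Fintype.card_congr α, Fintype.card_fin]
  refine (main (fun x => α' (α.symm x)) (fun y => β' (β.symm y)) (γ.symm.trans γ') ?_).map
    AddEquiv.symm
  rw [hc]
  refine lt_of_le_of_lt (Nat.mul_le_mul_left 9 (le_trans ?_ hS)) hk
  refine card_le_card_of_injOn (fun p => (α.symm p.1, β.symm p.2)) ?_ ?_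
  · intro p hp
    simp only [coe_filter, mem_univ, true_and, Set.mem_ofPred_eq, mem_coe] at hp ⊢
    by_contra hh
    apply hp
    have e : γ.symm (p.1 + p.2) = A (α.symm p.1) (β.symm p.2) := by
      rw [Equiv.symm_apply_eq, hA]; simp
    rw [Equiv.trans_apply, e, ← h _ _ hh, hA']
  · intro p _ q _ hpq
    simp only [Prod.mk.injEq, EmbeddingLike.apply_eq_iff_eq] at hpq
    exact Prod.ext hpq.1 hpq.2

def psi : ZMod 9 ≃ ZMod 3 × ZMod 3 where
  toFun x := ((x.val : ZMod 3), (((x.val + 1) / 3 : ℕ) : ZMod 3))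
  invFun y := ((3 * y.2.val + (y.1 + 1).val + 8 : ℕ) : ZMod 9)
  left_inv := by decide
  right_inv := by decide

def B0 : Finset (ZMod 9 × ZMod 9) := univ.filter (fun p => psi (p.1 + p.2) ≠ psi p.1 + psi p.2)

lemma cB : B0.card = 18 := by decide +kernel

lemma tor (X Y : Type) [AddCommGroup X] [AddCommGroup Y] [Fintype X] [Fintype Y]
    [DecidableEq X] [DecidableEq Y] :
    (univ.filter (fun x : X × Y => 3 • x = 0)).card =
      (univ.filter (fun x : X => 3 • x = 0)).card * (univ.filter (fun y : Y => 3 • y = 0)).card := by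
  rw [← card_product]
  congr 1
  ext x
  simp [Prod.ext_iff]

lemma noiso (m : ℕ) [NeZero m] (f : (ZMod 3 × ZMod 3) × ZMod m ≃+ ZMod 9 × ZMod m) : False := by
  have h : (univ.filter (fun x : (ZMod 3 × ZMod 3) × ZMod m => 3 • x = 0)).card =
      (univ.filter (fun x : ZMod 9 × ZMod m => 3 • x = 0)).card :=
    card_equiv f.toEquiv (by
      intro x
      simp only [mem_filter, mem_univ, true_and, AddEquiv.toEquiv_eq_coe, EquivLike.coe_coe]
      rw [← map_nsmul, map_eq_zero_iff f f.injective])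
  have h1 : (univ.filter (fun x : ZMod 3 × ZMod 3 => 3 • x = 0)).card = 9 := by decide +kernel
  have h2 : (univ.filter (fun x : ZMod 9 => 3 • x = 0)).card = 3 := by decide +kernel
  have h3 : 0 < (univ.filter (fun y : ZMod m => 3 • y = 0)).card :=
    card_pos.2 ⟨0, by simp⟩
  rw [tor, tor (ZMod 9), h1, h2] at h
  omega

theorem result (n k : ℕ) :
    (9 * k < 2 * n ^ 2 → Det n k) ∧ (0 < n → 9 ∣ n → Det n k → 9 * k < 2 * n ^ 2) := by
  refine ⟨lower n k, ?_⟩
  rintro hn ⟨m, rfl⟩ hD
  have : NeZero m := ⟨by omega⟩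
  by_contra hk
  have e : Fin (9 * m) ≃ ZMod 9 × ZMod m :=
    (Fintype.equivFinOfCardEq (by simp [ZMod.card])).symm
  let P : ZMod 9 × ZMod m ≃ (ZMod 3 × ZMod 3) × ZMod m := Equiv.prodCongr psi (Equiv.refl _)
  obtain ⟨f⟩ := hD (ZMod 9 × ZMod m) ((ZMod 3 × ZMod 3) × ZMod m)
    (fun i j => e.symm (e i + e j)) (fun i j => (e.trans P).symm ((e.trans P) i + (e.trans P) j))
    e e e (e.trans P) (e.trans P) (e.trans P) (fun i j => Equiv.apply_symm_apply _ _)
    (fun i j => Equiv.apply_symm_apply _ _)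
    (univ.filter (fun p => ((e p.1).1, (e p.2).1) ∈ B0)) (by
      have h1 : (univ.filter (fun p : Fin (9 * m) × Fin (9 * m) =>
          ((e p.1).1, (e p.2).1) ∈ B0)).card ≤ (B0 ×ˢ (univ : Finset (ZMod m × ZMod m))).card := by
        refine card_le_card_of_injOn (fun p => (((e p.1).1, (e p.2).1), ((e p.1).2, (e p.2).2))) ?_ ?_
        · intro p hp
          simpa using hp
        · intro p _ q _ hpq
          simp only [Prod.mk.injEq] at hpq
          exact Prod.ext (e.injective (Prod.ext hpq.1.1 hpq.2.1))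
            (e.injective (Prod.ext hpq.1.2 hpq.2.2))
      rw [card_product, cB, card_univ, Fintype.card_prod, ZMod.card] at h1
      nlinarith) (by
      intro i j hij
      simp only [B0, mem_filter, mem_univ, true_and, not_not] at hij
      rw [Equiv.symm_apply_eq]
      simp only [Equiv.trans_apply, Equiv.apply_symm_apply]
      exact Prod.ext hij.symm rfl)
  exact noiso m f

end Pool.Agent.Results.MP_9441bf_co.Quad
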